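import Mathlib

namespace Pool.Agent.H.MP_0bab21_co

lemma count_set_lt {w : List Bool} {i : ℕ} (h : w[i]? = some false) :
    (w.set i true).count false < w.count false := by
  induction w generalizing i with
  | nil => simp at h
  | cons b w ih =>
    cases i with
    | zero =>
      simp at h
      subst h
      simp
    | succ i =>
      simp only [List.getElem?_cons_succ] at h
      have := ih h
      simp only [List.set_cons_succ, List.count_cons]
      omega

lemma count_set_le (w : List Bool) (i : ℕ) : (w.set i true).count false ≤ w.count false := by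
  induction w generalizing i with
  | nil => simp
  | cons b w ih =>
    cases i with
    | zero => simp [List.count_cons]
    | succ i =>
      have := ih i
      simp only [List.set_cons_succ, List.count_cons]
      omega

def Win (M : Finset ℕ) (w : List Bool) (x : ℕ) : Prop :=
  ∃ m ∈ M, ∃ _h : w[(x + m) % w.length]? = some false,
    ¬ Win M (w.set ((x + m) % w.length) true) ((x + m) % w.length)
termination_by w.count false
decreasing_by exact count_set_lt _h

def Land (M : Finset ℕ) (w : List Bool) (e : ℕ) : Prop :=
  w[e]? = some false ∧ ¬ Win M (w.set e true) e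

lemma win_iff (M : Finset ℕ) (w : List Bool) (x : ℕ) :
    Win M w x ↔ ∃ m ∈ M, Land M w ((x + m) % w.length) := by
  rw [Win]
  simp only [Land, exists_prop]

def G {σ : Type} (M : Finset ℕ) (δ : σ → Bool → σ) (acc : σ → ℕ → Prop) (v : List Bool) (q : σ) :
    Prop :=
  ∃ m ∈ M, (∃ _h : 0 < m ∧ m ≤ v.length, v[m - 1]? = some false ∧
      ¬ G M δ acc (v.drop m) ((v.take (m - 1) ++ [true]).foldl δ q)) ∨
    (v.length < m ∧ acc (v.foldl δ q) (m - v.length - 1))
termination_by v.length
decreasing_by
  rw [List.length_drop]
  omega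

def Claim (M : Finset ℕ) (R j : ℕ) {σ : Type} (s : σ) (δ : σ → Bool → σ) (acc : σ → ℕ → Prop) :
    Prop :=
  ∀ w : List Bool, R ≤ w.length → (w.take R).count false ≤ j → ∀ e < R,
    (acc (w.foldl δ s) e ↔ Land M w e)

lemma set_split (u v : List Bool) (k : ℕ) (hk : k < v.length) :
    (u ++ v).set (u.length + k) true = (u ++ (v.take k ++ [true])) ++ v.drop (k + 1) := by
  rw [List.set_append_right _ _ (by omega), Nat.add_sub_cancel_left, List.set_eq_take_append_cons_drop,
    if_pos hk]
  simp

lemma win_G {M : Finset ℕ} {R j : ℕ} (hM : ∀ m ∈ M, 0 < m ∧ m ≤ R) {σ : Type} {s : σ}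
    {δ : σ → Bool → σ} {acc : σ → ℕ → Prop} (hc : Claim M R j s δ acc) (v : List Bool) :
    ∀ (u : List Bool) (x : ℕ), u.length = x + 1 → R ≤ (u ++ v).length →
      ((u ++ v).take R).count false ≤ j → (Win M (u ++ v) x ↔ G M δ acc v (u.foldl δ s)) := by
  induction hn : v.length using Nat.strong_induction_on generalizing v with
  | _ n ih =>
    intro u x hu hR hj
    rw [win_iff, G]
    refine exists_congr fun m => and_congr_right fun hm => ?_
    obtain ⟨h0, h1⟩ := hM m hm
    have hl : (u ++ v).length = x + 1 + v.length := by rw [List.length_append, hu]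
    by_cases h : m ≤ v.length
    · have e1 : (x + m) % (u ++ v).length = u.length + (m - 1) := by
        rw [Nat.mod_eq_of_lt (by omega)]
        omega
      have e2 := set_split u v (m - 1) (by omega)
      rw [show m - 1 + 1 = m by omega] at e2
      have e3 := ih (v.drop m).length (by rw [List.length_drop]; omega) (v.drop m) rfl
        (u ++ (v.take (m - 1) ++ [true])) (u.length + (m - 1))
        (by simp only [List.length_append, List.length_take, List.length_singleton]; omega)
        (by rw [← e2, List.length_set]; exact hR)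
        (by
          rw [← e2, List.take_set]
          exact (count_set_le _ _).trans hj)
      rw [e1, Land, e2, e3, List.getElem?_append_right (by omega), Nat.add_sub_cancel_left,
        List.foldl_append]
      constructor
      · intro h'
        exact Or.inl ⟨⟨h0, h⟩, h'⟩
      · rintro (⟨-, h'⟩ | ⟨h', -⟩)
        · exact h'
        · omega
    · have e1 : (x + m) % (u ++ v).length = m - v.length - 1 := by
        rw [show x + m = (u ++ v).length + (m - v.length - 1) by omega, Nat.add_mod_left,
          Nat.mod_eq_of_lt (by omega)]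
      rw [e1, ← hc (u ++ v) hR hj _ (by omega), List.foldl_append]
      constructor
      · intro h'
        exact Or.inr ⟨by omega, h'⟩
      · rintro (⟨h', -⟩ | ⟨-, h'⟩)
        · omega
        · exact h'

lemma take_le {R k : ℕ} {v v' : List Bool} (h : v.take R = v'.take R) (hk : k ≤ R) :
    v.take k = v'.take k := by
  have := congrArg (List.take k) h
  rwa [List.take_take, List.take_take, Nat.min_eq_left hk] at this

lemma get_lt {R k : ℕ} {v v' : List Bool} (h : v.take R = v'.take R) (hk : k < R) :
    v[k]? = v'[k]? := by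
  have := congrArg (fun l : List Bool => l[k]?) h
  simpa [List.getElem?_take, hk] using this

lemma G_congr {M : Finset ℕ} {R : ℕ} (hM : ∀ m ∈ M, 0 < m ∧ m ≤ R) {σ : Type}
    (δ : σ → Bool → σ) (acc : σ → ℕ → Prop) {v v' : List Bool} (h : v.take R = v'.take R)
    (hd : ∀ i, 1 ≤ i → i ≤ R → G M δ acc (v.drop i) = G M δ acc (v'.drop i)) :
    G M δ acc v = G M δ acc v' := by
  have hlen := congrArg List.length h
  rw [List.length_take, List.length_take] at hlen
  by_cases hs : v.length < R
  · have : v = v' := by
      rwa [List.take_of_length_le (by omega), List.take_of_length_le (by omega)] at h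
    rw [this]
  · ext q
    rw [G, G]
    refine exists_congr fun m => and_congr_right fun hm => ?_
    obtain ⟨h0, h1⟩ := hM m hm
    rw [hd m h0 h1, take_le h (show m - 1 ≤ R by omega), get_lt h (show m - 1 < R by omega)]
    have a1 : m ≤ v.length := by omega
    have a2 : m ≤ v'.length := by omega
    simp [a1, a2, h0, not_lt.2 a1, not_lt.2 a2]

lemma step {M : Finset ℕ} {R j : ℕ} (hM : ∀ m ∈ M, 0 < m ∧ m ≤ R) {σ : Type} [Finite σ] {s : σ}
    {δ : σ → Bool → σ} {acc : σ → ℕ → Prop} (hc : Claim M R j s δ acc) :
    ∃ (σ' : Type) (_ : Finite σ') (s' : σ') (δ' : σ' → Bool → σ') (acc' : σ' → ℕ → Prop),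
      Claim M R (j + 1) s' δ' acc' := by
  classical
  have : Finite {l : List Bool // l.length ≤ R} := (List.finite_length_le Bool R).to_subtype
  let τ := (Fin (R + 1) → σ → Prop) × {l : List Bool // l.length ≤ R}
  let Θ : List Bool → τ := fun v =>
    (fun i => G M δ acc (v.drop i), ⟨v.take R, by rw [List.length_take]; omega⟩)
  have hΘ : ∀ v v', Θ v = Θ v' ↔
      (∀ i, i ≤ R → G M δ acc (v.drop i) = G M δ acc (v'.drop i)) ∧ v.take R = v'.take R := by
    intro v v'
    simp only [Θ, τ, Prod.mk.injEq, Subtype.mk.injEq, funext_iff (f := fun i : Fin (R + 1) => _)]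
    refine and_congr_left fun _ => ⟨fun h i hi => h ⟨i, by omega⟩, fun h i => h i (by omega)⟩
  have cong : ∀ b v v', Θ v = Θ v' → Θ (b :: v) = Θ (b :: v') := by
    intro b v v' h
    rw [hΘ] at h ⊢
    have ht : (b :: v).take R = (b :: v').take R := by
      cases R with
      | zero => simp
      | succ R => rw [List.take_succ_cons, List.take_succ_cons, take_le h.2 (Nat.le_succ R)]
    have hd : ∀ i, 1 ≤ i → i ≤ R → G M δ acc ((b :: v).drop i) = G M δ acc ((b :: v').drop i) := by
      intro i h1 h2
      obtain ⟨i, rfl⟩ : ∃ k, i = k + 1 := ⟨i - 1, by omega⟩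
      exact h.1 i (by omega)
    refine ⟨fun i hi => ?_, ht⟩
    rcases Nat.eq_zero_or_pos i with rfl | h0
    · exact G_congr hM δ acc ht hd
    · exact hd i h0 hi
  let st : Bool → τ → τ := fun b t => if h : ∃ v, Θ v = t then Θ (b :: h.choose) else t
  have hst : ∀ b v, st b (Θ v) = Θ (b :: v) := by
    intro b v
    have h : ∃ v', Θ v' = Θ v := ⟨v, rfl⟩
    simp only [st, dif_pos h]
    exact cong b _ _ h.choose_spec
  let δ' : (τ → τ) → Bool → τ → τ := fun f b => f ∘ st b
  have hf : ∀ (w : List Bool) (f : τ → τ), w.foldl δ' f (Θ []) = f (Θ w) := by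
    intro w
    induction w with
    | nil => intro f; rfl
    | cons b w ih =>
      intro f
      rw [List.foldl_cons, ih]
      simp only [δ', Function.comp, hst]
  let A : List Bool → ℕ → Prop := fun w e =>
    w[e]? = some false ∧ ¬ G M δ acc (w.drop (e + 1)) ((w.take e ++ [true]).foldl δ s)
  refine ⟨τ → τ, inferInstance, id, δ', fun f e => ∃ w, Θ w = f (Θ []) ∧ A w e, ?_⟩
  intro w hR hj e he
  have e1 : (∃ w', Θ w' = w.foldl δ' id (Θ []) ∧ A w' e) ↔ A w e := by
    rw [hf]
    refine ⟨?_, fun h => ⟨w, rfl, h⟩⟩
    rintro ⟨w', h1, h2⟩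
    have h3 := (hΘ _ _).1 h1
    simp only [A] at h2 ⊢
    rwa [h3.1 (e + 1) (by omega), take_le h3.2 he.le, get_lt h3.2 he] at h2
  refine e1.trans (and_congr_right fun hw => not_congr ?_)
  have e2 := set_split [] w e (by omega)
  simp only [List.nil_append, List.length_nil, zero_add] at e2
  rw [e2]
  refine (win_G hM hc _ _ e ?_ ?_ ?_).symm
  · simp only [List.length_append, List.length_take, List.length_singleton]
    omega
  · rw [← e2, List.length_set]
    exact hR
  · rw [← e2, List.take_set]
    have : ((w.take R).set e true).count false < (w.take R).count false :=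
      count_set_lt (by rw [List.getElem?_take, if_pos he]; exact hw)
    omega

lemma all {M : Finset ℕ} {R : ℕ} (hM : ∀ m ∈ M, 0 < m ∧ m ≤ R) (j : ℕ) :
    ∃ (σ : Type) (_ : Finite σ) (s : σ) (δ : σ → Bool → σ) (acc : σ → ℕ → Prop),
      Claim M R j s δ acc := by
  induction j with
  | zero =>
    refine ⟨Unit, inferInstance, (), fun _ _ => (), fun _ _ => False, ?_⟩
    intro w hR hj e he
    refine ⟨False.elim, fun h => ?_⟩
    have : ((w.take R).set e true).count false < (w.take R).count false :=
      count_set_lt (by rw [List.getElem?_take, if_pos he]; exact h.1)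
    omega
  | succ j ih =>
    obtain ⟨σ, _, s, δ, acc, hc⟩ := ih
    exact step hM hc

lemma periodic (M : Finset ℕ) (hM : ∀ m ∈ M, 0 < m) : ∃ N p : ℕ, 0 < p ∧ ∀ n, N ≤ n →
    (Win M ((List.replicate n false).set 0 true) 0 ↔
      Win M ((List.replicate (n + p) false).set 0 true) 0) := by
  have hM' : ∀ m ∈ M, 0 < m ∧ m ≤ M.sup id + 1 := fun m hm =>
    ⟨hM m hm, (Finset.le_sup (f := id) hm).trans (Nat.le_succ _)⟩
  set R := M.sup id + 1 with hR
  obtain ⟨σ, _, s, δ, acc, hc⟩ := all hM' R
  let q : ℕ → σ := fun n => (List.replicate n false).foldl δ s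
  have hq : ∀ a k, q (a + k) = (List.replicate k false).foldl δ (q a) := by
    intro a k
    simp only [q]
    rw [← List.foldl_append, List.replicate_append_replicate]
  obtain ⟨a, b, hab, h⟩ : ∃ a b, a < b ∧ q a = q b := by
    obtain ⟨a, b, hne, h⟩ := Finite.exists_ne_map_eq_of_infinite q
    rcases lt_or_gt_of_ne hne with h' | h'
    · exact ⟨a, b, h', h⟩
    · exact ⟨b, a, h', h.symm⟩
  have key : ∀ n, R ≤ n → (acc (q n) 0 ↔ ¬ Win M ((List.replicate n false).set 0 true) 0) := by
    intro n hn
    rw [hc _ (by simpa using hn) (List.count_le_length.trans (by simp)) 0 (by omega), Land]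
    refine and_iff_right ?_
    rw [List.getElem?_replicate, if_pos (by omega)]
  refine ⟨a + R, b - a, by omega, fun n hn => ?_⟩
  have : q (n + (b - a)) = q n := by
    rw [show n + (b - a) = b + (n - a) by omega, hq, ← h, ← hq, show a + (n - a) = n by omega]
  rw [← not_iff_not, ← key n (by omega), ← key _ (by omega), this]

def tape {n : ℕ} (S : Finset (ZMod n)) : List Bool :=
  (List.range n).map fun i : ℕ => decide ((i : ZMod n) ∈ S)

lemma tape_len {n : ℕ} (S : Finset (ZMod n)) : (tape S).length = n := by simp [tape]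

lemma tape_get {n : ℕ} (S : Finset (ZMod n)) {i : ℕ} (hi : i < n) :
    (tape S)[i]? = some (decide ((i : ZMod n) ∈ S)) := by
  simp [tape, hi]

lemma tape_insert {n : ℕ} [NeZero n] (S : Finset (ZMod n)) (y : ZMod n) :
    tape (insert y S) = (tape S).set y.val true := by
  apply List.ext_getElem?
  intro i
  by_cases hi : i < n
  · rw [List.getElem?_set, tape_get _ hi, tape_get _ hi, tape_len]
    by_cases h : y.val = i
    · subst h
      simp [hi]
    · have : (i : ZMod n) ≠ y := fun h' => h (by rw [← h', ZMod.val_natCast, Nat.mod_eq_of_lt hi])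
      simp [h, this]
  · rw [List.getElem?_eq_none (by rw [tape_len]; omega),
      List.getElem?_eq_none (by rw [List.length_set, tape_len]; omega)]

lemma win_tape (M : Finset ℕ) {n : ℕ} [NeZero n] (S : Finset (ZMod n)) (x : ZMod n) :
    Win M (tape S) x.val ↔ ∃ m ∈ M, (x + (m : ZMod n)) ∉ S ∧
      ¬ Win M (tape (insert (x + (m : ZMod n)) S)) (x + (m : ZMod n)).val := by
  rw [win_iff]
  refine exists_congr fun m => and_congr_right fun _ => ?_
  have e : (x.val + m) % (tape S).length = (x + (m : ZMod n)).val := by
    rw [tape_len, ZMod.val_add, ZMod.val_natCast, Nat.add_mod_mod]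
  rw [e, Land, tape_get _ (ZMod.val_lt _), tape_insert]
  simp

lemma frozen (M : Finset ℕ) (n : ℕ) [NeZero n] :
    (∃ W : Finset (ZMod n) → ZMod n → Prop,
      (∀ (S : Finset (ZMod n)) (x : ZMod n),
        W S x ↔ ∃ m ∈ M, (x + (m : ZMod n)) ∉ S ∧
          ¬ W (insert (x + (m : ZMod n)) S) (x + (m : ZMod n))) ∧ W {0} 0) ↔
      Win M ((List.replicate n false).set 0 true) 0 := by
  have e : tape ({0} : Finset (ZMod n)) = (List.replicate n false).set 0 true := by
    have := tape_insert (∅ : Finset (ZMod n)) 0
    rw [ZMod.val_zero] at this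
    rw [← show tape (∅ : Finset (ZMod n)) = List.replicate n false by simp [tape], ← this]
    rfl
  rw [← e]
  constructor
  · rintro ⟨W, hW, h0⟩
    have u : ∀ k (S : Finset (ZMod n)), Sᶜ.card = k → ∀ x, (W S x ↔ Win M (tape S) x.val) := by
      intro k
      induction k using Nat.strong_induction_on with
      | _ k ih =>
        intro S hS x
        rw [hW, win_tape]
        refine exists_congr fun m => and_congr_right fun _ => and_congr_right fun h => not_congr ?_
        refine ih _ ?_ _ rfl _
        rw [← hS, Finset.compl_insert]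
        exact Finset.card_erase_lt_of_mem (by simpa using h)
    have := (u _ _ rfl 0).1 h0
    rwa [ZMod.val_zero] at this
  · intro h
    refine ⟨fun S x => Win M (tape S) x.val, fun S x => win_tape M S x, ?_⟩
    simpa using h

end Pool.Agent.H.MP_0bab21_co
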